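import Pool.Agent.Helper20.QP.St3
import Pool.Agent.Helper79.QD.M_RIJ
import Pool.Agent.Helper33.QD.M_SUB

/-!
Project QD, part P, module NUG: the invariant coefficient which is constant in the coordinate of an annulus.
-/

set_option autoImplicit false

open Filter Topology Matrix Set Metric MeasureTheory
open scoped ComplexConjugate

namespace Pool.Agent.Helper82.QP

open Pool.Agent.Helper35.PM Pool.Agent.Helper20.QD Pool.Agent.Helper20.QP

theorem nug_sm_open (m : ℝ) : IsOpen (Sm m) :=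
  (isOpen_lt continuous_const Complex.continuous_im).inter
    (isOpen_lt Complex.continuous_im continuous_const)

theorem nug_sm_add {m : ℝ} {w : ℂ} (hw : w ∈ Sm m) (n : ℤ) : w + n ∈ Sm m := by
  simpa [Sm] using hw

theorem nug_norm {G : ℂ} (hG : G ≠ 0) (μ0 : ℂ) : ‖μ0 * (G / conj G)‖ = ‖μ0‖ := by
  rw [norm_mul, norm_div, Complex.norm_conj, div_self (norm_ne_zero_iff.2 hG), mul_one]

theorem hNUG : StNUG := by
  classical
  intro Γ _ _ r A α f m μ0 hA hrA hm hf hfi hfA hper hdis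
  obtain ⟨-, -, -, hmul, hder, -⟩ := Pool.Agent.Helper33.QD.hSUB
  have hRIJ := Pool.Agent.Helper79.QD.hRIJ
  obtain ⟨F, hF⟩ : ∃ F : Γ → ℂ → ℂ, F = fun γ w => mob (r γ) (f w) := ⟨_, rfl⟩
  have hFv : ∀ γ w, F γ w = mob (r γ) (f w) := fun γ w => by rw [hF]
  have hSo : IsOpen (Sm m) := nug_sm_open m
  have hden : ∀ γ, ∀ w ∈ Sm m, den (r γ) (f w) ≠ 0 := fun γ w hw => (hrA γ _ (hfA hw)).1
  have hfd : ∀ w ∈ Sm m, HasDerivAt f (deriv f w) w := fun w hw =>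
    (hf.differentiableAt (hSo.mem_nhds hw)).hasDerivAt
  have hFd : ∀ γ, ∀ w ∈ Sm m, HasDerivAt (F γ) ((den (r γ) (f w) ^ 2)⁻¹ * deriv f w) w := by
    intro γ w hw
    rw [hF]
    exact (hder (r γ) (f w) (hden γ w hw)).comp w (hfd w hw)
  have hcomp : ∀ γ δ, ∀ ξ ∈ A, mob (r (γ * δ)) ξ = mob (r γ) (mob (r δ) ξ) := by
    intro γ δ ξ hξ
    rw [map_mul]
    exact (hmul (r γ) (r δ) ξ (hrA δ ξ hξ).1).1
  have hone : ∀ z, mob (r 1) z = z := by
    intro z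
    rw [map_one]
    simp [mob]
  have hinv : ∀ γ, ∀ ξ ∈ A, mob (r γ⁻¹) (mob (r γ) ξ) = ξ := by
    intro γ ξ hξ
    rw [← hcomp γ⁻¹ γ ξ hξ, inv_mul_cancel, hone]
  have hFA : ∀ γ, ∀ w ∈ Sm m, F γ w ∈ A := by
    intro γ w hw
    rw [hFv]
    exact (hrA γ _ (hfA hw)).2
  have hFi : ∀ γ, InjOn (F γ) (Sm m) := by
    intro γ w hw w' hw' h
    rw [hFv, hFv] at h
    have h1 := congrArg (mob (r γ⁻¹)) h
    rw [hinv γ _ (hfA hw), hinv γ _ (hfA hw')] at h1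
    exact hfi hw hw' h1
  have hFdo : ∀ γ, DifferentiableOn ℂ (F γ) (Sm m) := fun γ w hw =>
    (hFd γ w hw).differentiableAt.differentiableWithinAt
  have hnat : ∀ n : ℕ, ∀ w ∈ Sm m, f (w + ((n : ℤ) : ℂ)) = mob (r (α ^ n)) (f w) := by
    intro n
    induction n with
    | zero =>
      intro w hw
      rw [pow_zero, hone]
      congr 1
      push_cast
      ring
    | succ n ih =>
      intro w hw
      have h1 := ih (w + ((1 : ℤ) : ℂ)) (nug_sm_add hw 1)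
      have h2 : w + ((1 : ℤ) : ℂ) + ((n : ℤ) : ℂ) = w + (((n + 1 : ℕ) : ℤ) : ℂ) := by
        push_cast
        ring
      have h3 : w + ((1 : ℤ) : ℂ) = w + 1 := by push_cast; ring
      rw [h2, h3, hper w hw, ← hcomp _ _ _ (hfA hw), ← pow_succ] at h1
      exact h1
  have hint : ∀ n : ℤ, ∀ w ∈ Sm m, f (w + (n : ℂ)) = mob (r (α ^ n)) (f w) := by
    intro n w hw
    rcases Int.eq_nat_or_neg n with ⟨k, rfl | rfl⟩
    · rw [zpow_natCast]
      exact hnat k w hw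
    · have h0 := nug_sm_add hw (-(k : ℤ))
      have h1 := hnat k (w + ((-(k : ℤ) : ℤ) : ℂ)) h0
      have h2 : w + ((-(k : ℤ) : ℤ) : ℂ) + ((k : ℤ) : ℂ) = w := by
        push_cast
        ring
      rw [h2] at h1
      rw [_root_.zpow_neg, zpow_natCast, h1, hinv _ _ (hfA h0)]
  have key : ∀ γ δ, ∀ w ∈ Sm m, ∀ w' ∈ Sm m, F γ w = F δ w' →
      deriv (F γ) w = deriv (F δ) w' := by
    intro γ δ w hw w' hw' h
    have h1 : mob (r (γ⁻¹ * δ)) (f w') = f w := by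
      rw [hFv, hFv] at h
      rw [hcomp _ _ _ (hfA hw'), ← h, hinv _ _ (hfA hw)]
    have h2 : ∃ n : ℤ, γ⁻¹ * δ = α ^ n := by
      by_contra hcon
      push Not at hcon
      have h3 := hdis _ hcon
      exact (Set.disjoint_left.1 h3) (by
        rw [← h1]
        exact mem_image_of_mem _ (mem_image_of_mem _ hw')) (mem_image_of_mem _ hw)
    obtain ⟨n, hn⟩ := h2
    have h3 : w = w' + (n : ℂ) := by
      apply hfi hw (nug_sm_add hw' n)
      rw [hint n w' hw', ← hn, h1]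
    have h4 : (fun v => F γ (v + (n : ℂ))) =ᶠ[𝓝 w'] F δ := by
      filter_upwards [hSo.mem_nhds hw'] with v hv
      rw [hFv, hFv, hint n v hv, ← hcomp _ _ _ (hfA hv), ← hn, mul_inv_cancel_left]
    rw [← h4.deriv_eq, deriv_comp_add_const, h3]
  have hG0 : ∀ γ, ∀ w ∈ Sm m, deriv (F γ) w ≠ 0 := fun γ =>
    (hRIJ (Sm m) (F γ) hSo (hFdo γ) (hFi γ)).1
  obtain ⟨c, hc⟩ : ∃ c : Γ → ℂ → ℂ, c = fun γ w => μ0 * (deriv (F γ) w / conj (deriv (F γ) w)) :=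
    ⟨_, rfl⟩
  have hcv : ∀ γ w, c γ w = μ0 * (deriv (F γ) w / conj (deriv (F γ) w)) := fun γ w => by rw [hc]
  obtain ⟨μ, hμ, hμ0⟩ : ∃ μ : ℂ → ℂ, (∀ γ, ∀ w ∈ Sm m, μ (F γ w) = c γ w) ∧
      ∀ ξ, (∀ γ, ∀ w ∈ Sm m, F γ w ≠ ξ) → μ ξ = 0 := by
    refine ⟨fun ξ => if h : ∃ p : Γ × ℂ, p.2 ∈ Sm m ∧ F p.1 p.2 = ξ then
      c h.choose.1 h.choose.2 else 0, ?_, ?_⟩
    · intro γ w hw
      have hex : ∃ p : Γ × ℂ, p.2 ∈ Sm m ∧ F p.1 p.2 = F γ w := ⟨(γ, w), hw, rfl⟩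
      simp only [dif_pos hex]
      obtain ⟨h1, h2⟩ := hex.choose_spec
      rw [hcv, hcv, key _ _ _ h1 _ hw h2]
    · intro ξ hξ
      have hex : ¬ ∃ p : Γ × ℂ, p.2 ∈ Sm m ∧ F p.1 p.2 = ξ := by
        rintro ⟨p, h1, h2⟩
        exact hξ _ _ h1 h2
      simp only [dif_neg hex]
  have hdc : ∀ γ, ContinuousOn (c γ) (Sm m) := by
    intro γ
    have h1 : ContinuousOn (deriv (F γ)) (Sm m) := ((hFdo γ).deriv hSo).continuousOn
    rw [hc]
    refine continuousOn_const.mul (h1.div (Complex.continuous_conj.comp_continuousOn h1) ?_)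
    intro w hw
    exact (map_ne_zero _).2 (hG0 γ w hw)
  have hopen : ∀ γ, ∀ O ⊆ Sm m, IsOpen O → IsOpen (F γ '' O) := fun γ O hO hOo =>
    (hRIJ O (F γ) hOo ((hFdo γ).mono hO) ((hFi γ).mono hO)).2.1
  have hFmul : ∀ γ δ, ∀ w ∈ Sm m, F (γ * δ) w = mob (r γ) (F δ w) := by
    intro γ δ w hw
    rw [hFv, hFv, hcomp _ _ _ (hfA hw)]
  have hmem : ∀ γ ξ, ξ ∈ mob (r γ) '' (f '' Sm m) ↔ ∃ w ∈ Sm m, F γ w = ξ := by
    intro γ ξ
    constructor
    · rintro ⟨_, ⟨w, hw, rfl⟩, rfl⟩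
      exact ⟨w, hw, hFv γ w⟩
    · rintro ⟨w, hw, rfl⟩
      exact ⟨f w, ⟨w, hw, rfl⟩, (hFv γ w).symm⟩
  have hnz : ∀ γ, ∀ w ∈ Sm m, ‖c γ w‖ = ‖μ0‖ := by
    intro γ w hw
    rw [hcv]
    exact nug_norm (hG0 γ w hw) μ0
  refine ⟨μ, ?_, ?_, ?_, ?_, ?_, ?_⟩
  · -- measurability
    have hVo : IsOpen (⋃ γ, F γ '' Sm m) := isOpen_iUnion fun γ => hopen γ _ subset_rfl hSo
    refine measurable_of_isOpen fun s hs => ?_
    have h1 : μ ⁻¹' s = (⋃ γ, F γ '' (Sm m ∩ c γ ⁻¹' s)) ∪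
        ((⋃ γ, F γ '' Sm m)ᶜ ∩ {_ξ : ℂ | (0 : ℂ) ∈ s}) := by
      ext ξ
      simp only [mem_preimage, mem_union, mem_inter_iff, mem_iUnion, mem_compl_iff, mem_ofPred_eq,
        mem_image]
      by_cases hξ : ∃ γ, ∃ w ∈ Sm m, F γ w = ξ
      · obtain ⟨γ, w, hw, rfl⟩ := hξ
        rw [hμ γ w hw]
        constructor
        · intro h
          exact Or.inl ⟨γ, w, ⟨hw, h⟩, rfl⟩
        · rintro (⟨δ, v, ⟨hv, hv2⟩, hv3⟩ | ⟨h, -⟩)
          · rw [hcv, key _ _ _ hw _ hv hv3.symm, ← hcv]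
            exact hv2
          · exact absurd ⟨γ, w, hw, rfl⟩ h
      · have h2 : μ ξ = 0 := hμ0 ξ fun γ w hw h => hξ ⟨γ, w, hw, h⟩
        rw [h2]
        constructor
        · intro h
          exact Or.inr ⟨hξ, h⟩
        · rintro (⟨δ, v, ⟨hv, -⟩, hv3⟩ | ⟨-, h⟩)
          · exact absurd ⟨δ, v, hv, hv3⟩ hξ
          · exact h
    rw [h1]
    refine (isOpen_iUnion fun γ => hopen γ _ inter_subset_left
      ((hdc γ).isOpen_inter_preimage hSo hs)).measurableSet.union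
      (hVo.measurableSet.compl.inter ?_)
    exact MeasurableSet.const _
  · intro ξ
    by_cases hξ : ∃ γ, ∃ w ∈ Sm m, F γ w = ξ
    · obtain ⟨γ, w, hw, rfl⟩ := hξ
      rw [hμ γ w hw, hnz γ w hw]
    · rw [hμ0 ξ fun γ w hw h => hξ ⟨γ, w, hw, h⟩, norm_zero]
      exact norm_nonneg _
  · intro γ ξ hξA
    by_cases hξ : ∃ δ, ∃ w ∈ Sm m, F δ w = ξ
    · obtain ⟨δ, w, hw, rfl⟩ := hξ
      rw [← hFmul γ δ w hw, hμ _ w hw, hμ _ w hw, hcv, hcv]
      have hd1 : deriv (F (γ * δ)) w = (den (r γ) (F δ w) ^ 2)⁻¹ * deriv (F δ) w := by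
        have h1 : HasDerivAt (fun v => mob (r γ) (F δ v))
            ((den (r γ) (F δ w) ^ 2)⁻¹ * deriv (F δ) w) w :=
          (hder (r γ) (F δ w) (hrA γ _ (hFA δ w hw)).1).comp w
            (hFd δ w hw).differentiableAt.hasDerivAt
        have h2 : F (γ * δ) =ᶠ[𝓝 w] fun v => mob (r γ) (F δ v) := by
          filter_upwards [hSo.mem_nhds hw] with v hv
          exact hFmul γ δ v hv
        exact (h1.congr_of_eventuallyEq h2).deriv
      rw [hd1, map_mul]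
      have hg : (den (r γ) (F δ w) ^ 2)⁻¹ ≠ 0 :=
        inv_ne_zero (pow_ne_zero 2 (hrA γ _ (hFA δ w hw)).1)
      have hG := hG0 δ w hw
      have hg' : conj ((den (r γ) (F δ w) ^ 2)⁻¹) ≠ 0 := (map_ne_zero _).2 hg
      have hG' : conj (deriv (F δ) w) ≠ 0 := (map_ne_zero _).2 hG
      generalize (den (r γ) (F δ w) ^ 2)⁻¹ = g at *
      generalize deriv (F δ) w = G at *
      generalize conj g = g' at *
      generalize conj G = G' at *
      field_simp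
    · have h1 : μ ξ = 0 := hμ0 ξ fun δ w hw h => hξ ⟨δ, w, hw, h⟩
      have h2 : μ (mob (r γ) ξ) = 0 := by
        apply hμ0
        intro δ w hw h
        apply hξ
        refine ⟨γ⁻¹ * δ, w, hw, ?_⟩
        rw [hFmul _ _ w hw, h, hinv γ ξ hξA]
      rw [h1, h2, zero_mul, zero_mul]
  · intro ξ hξ
    apply hμ0
    intro γ w hw h
    exact hξ γ ((hmem γ ξ).2 ⟨w, hw, h⟩)
  · intro w hw
    have h1 : F 1 = f := by
      funext v
      rw [hFv, hone]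
    have h2 := hμ 1 w hw
    rw [hcv, h1] at h2
    have h3 : conj (deriv f w) ≠ 0 := by
      have h4 := hG0 1 w hw
      rw [h1] at h4
      exact (map_ne_zero _).2 h4
    rw [h2, mul_assoc, div_mul_cancel₀ _ h3]
  · intro γ w hw
    rw [← hFv, hμ γ w hw]
    exact hnz γ w hw

end Pool.Agent.Helper82.QP
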